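import Pool.Agent.Helper54.GS.Defs

/-!
# GS-5: a fixed vector `v` of an element `τ` of order `p` of `SL(V)`, `τ` nontrivial on `V/<v>`

`ker(τ - 1) ≠ 0` as `(τ-1)^p = τ^p - 1 = 0`.  Let `v₀ ≠ 0` be in it.  If `(τ-1)V ⊆ <v₀>`, then `ker(τ-1)` has
dimension at least `dim V - 1 ≥ 2`; take `v` in it, not in `<v₀>`; then `(τ-1)V = <v₀>` is not in `<v>`.
-/

set_option autoImplicit false

namespace Pool.Agent.Helper54.GS

section
variable {p : ℕ} [Fact p.Prime] {𝔽 : Type} [Field 𝔽] [Finite 𝔽] [CharP 𝔽 p]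
  {V : Type} [AddCommGroup V] [Module 𝔽 V] [FiniteDimensional 𝔽 V]

/-- GS-5 -/
theorem exists_fixed (hV : 3 ≤ Module.finrank 𝔽 V) (τ : SpecialLinearGroup 𝔽 V)
    (hτ : orderOf τ = p) :
    ∃ v : V, v ≠ 0 ∧ τ v = v ∧ ∃ x : V, τ x - x ∉ Submodule.span 𝔽 {v} := by
  classical
  have hp : p.Prime := Fact.out
  have : Nontrivial V := Module.nontrivial_of_finrank_pos (R := 𝔽) (by omega)
  have : CharP (Module.End 𝔽 V) p :=
    charP_of_injective_algebraMap (algebraMap 𝔽 (Module.End 𝔽 V)).injective p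
  set T : Module.End 𝔽 V := ((τ : V ≃ₗ[𝔽] V) : V →ₗ[𝔽] V) with hT
  have hTx : ∀ x : V, T x = τ x := fun x => rfl
  have hpow : ∀ k : ℕ, ∀ x : V, (T ^ k) x = (τ ^ k : SpecialLinearGroup 𝔽 V) x := by
    intro k
    induction k with
    | zero => intro x; rfl
    | succ k ih =>
      intro x
      rw [pow_succ, pow_succ, Module.End.mul_apply, ih (T x)]
      rfl
  have hTp : T ^ p = 1 := by
    ext x
    have h1 : τ ^ p = 1 := by rw [← hτ]; exact pow_orderOf_eq_one τ
    rw [hpow p x, h1]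
    rfl
  have hN : (T - 1) ^ p = 0 := by
    have h := sub_pow_char_of_commute (R := Module.End 𝔽 V) (p := p) (x := T) (y := 1)
      (Commute.one_right T)
    rw [h, hTp, one_pow, sub_self]
  have hker : ∃ v : V, v ≠ 0 ∧ (T - 1) v = 0 := by
    by_contra hno
    push Not at hno
    have hinj : ∀ a : V, (T - 1) a = 0 → a = 0 := by
      intro a ha
      by_contra h0
      exact hno a h0 ha
    obtain ⟨w, hw⟩ := exists_ne (0 : V)
    have hinj2 : ∀ k : ℕ, ((T - 1) ^ k) w ≠ 0 := by
      intro k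
      induction k with
      | zero => exact hw
      | succ k ih =>
        rw [pow_succ', Module.End.mul_apply]
        intro h
        exact ih (hinj _ h)
    exact hinj2 p (by rw [hN]; rfl)
  obtain ⟨v₀, hv₀, hv₁⟩ := hker
  have hfix : ∀ x : V, (T - 1) x = 0 → τ x = x := by
    intro x hx
    have : T x - x = 0 := hx
    exact sub_eq_zero.1 this
  by_cases hc : ∃ x : V, τ x - x ∉ Submodule.span 𝔽 {v₀}
  · exact ⟨v₀, hv₀, hfix v₀ hv₁, hc⟩
  · push Not at hc
    have hrange : LinearMap.range (T - 1) ≤ Submodule.span 𝔽 {v₀} := by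
      rintro _ ⟨x, rfl⟩
      exact hc x
    have h1 : Module.finrank 𝔽 (LinearMap.range (T - 1)) ≤ 1 := by
      refine (Submodule.finrank_mono hrange).trans ?_
      exact (finrank_span_singleton hv₀).le
    have h2 := LinearMap.finrank_range_add_finrank_ker (T - 1)
    have h3 : 1 < Module.finrank 𝔽 (LinearMap.ker (T - 1)) := by omega
    have h4 : ∃ v ∈ LinearMap.ker (T - 1), v ∉ Submodule.span 𝔽 {v₀} := by
      by_contra hno
      push Not at hno
      have h5 : LinearMap.ker (T - 1) ≤ Submodule.span 𝔽 {v₀} := hno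
      have h6 := Submodule.finrank_mono h5
      rw [finrank_span_singleton hv₀] at h6
      omega
    obtain ⟨v, hv, hvs⟩ := h4
    have hv0 : v ≠ 0 := by
      rintro rfl
      exact hvs (Submodule.zero_mem _)
    refine ⟨v, hv0, hfix v hv, ?_⟩
    have hne : τ ≠ 1 := by
      intro h
      rw [h, orderOf_one] at hτ
      exact hp.one_lt.ne hτ
    obtain ⟨x, hx⟩ : ∃ x : V, τ x ≠ x := by
      by_contra hno
      push Not at hno
      exact hne (SpecialLinearGroup.ext _ _ fun x => hno x)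
    refine ⟨x, fun hmem => ?_⟩
    obtain ⟨c, hc'⟩ := Submodule.mem_span_singleton.1 (hc x)
    obtain ⟨d, hd⟩ := Submodule.mem_span_singleton.1 hmem
    have hd0 : d ≠ 0 := by
      rintro rfl
      rw [zero_smul] at hd
      exact hx (sub_eq_zero.1 hd.symm)
    apply hvs
    rw [Submodule.mem_span_singleton]
    refine ⟨d⁻¹ * c, ?_⟩
    rw [mul_smul, hc', ← hd, smul_smul, inv_mul_cancel₀ hd0, one_smul]

end

end Pool.Agent.Helper54.GS
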